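import Pool.Agent.Helper60.BFT.Final

/-!
# Residues mod 4 of consecutive twin pairs in the random sieve model

The residue classes removed modulo the primes `p ≤ n ^ (1 / K)` are arbitrary (for instance the true
class `0`), the classes removed modulo the larger primes `p ≤ Z n` are random. With all classes
random this is the Banks-Ford-Tao model.
-/

set_option autoImplicit false

open Filter Topology MeasureTheory ProbabilityTheory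

namespace Pool.Agent.Results.MP_74f661_nt.HybridSieve

/-- For the increasing enumeration `s_0 < s_1 < …` of the numbers satisfying `P`: the number of
indices `i` with `s_i ≤ x` and `s_i ≡ c (mod 4)`. -/
noncomputable def count₁ (P : ℕ → Prop) (x c : ℕ) : ℕ :=
  {i : ℕ | Nat.nth P i ≤ x ∧ Nat.nth P i % 4 = c}.ncard

/-- The number of indices `i` with `s_i ≤ x`, `s_i ≡ c` and `s_{i+1} ≡ d (mod 4)`. -/
noncomputable def count₂ (P : ℕ → Prop) (x c d : ℕ) : ℕ :=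
  {i : ℕ | Nat.nth P i ≤ x ∧ Nat.nth P i % 4 = c ∧ Nat.nth P (i + 1) % 4 = d}.ncard

/-- The transition frequency `δ(x; 4; c|d)`. -/
noncomputable def delta (P : ℕ → Prop) (x c d : ℕ) : ℝ :=
  (count₂ P x c d : ℝ) / (count₁ P x c : ℝ)

/-- Admissible cutoffs: `n ^ (1 / k) ≤ Z n ≤ n`. -/
def Cut (k : ℕ) (Z : ℕ → ℕ) : Prop :=
  Monotone Z ∧ (∀ n, Z n ≤ n) ∧ ∀ᶠ n : ℕ in atTop, n ≤ Z n ^ k

/-- Independent residue classes, `ω p` uniform in `{0, …, p - 1}` for every prime `p`. -/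
def Uni {Ω : Type} [MeasurableSpace Ω] (μ : Measure Ω) (ω : ℕ → Ω → ℕ) : Prop :=
  (∀ p, Measurable (ω p)) ∧ iIndepFun ω μ ∧
    ∀ p : ℕ, p.Prime → ∀ c < p, μ {w | ω p w = c} = (p : ENNReal)⁻¹

/-- The classes `β r p` (`p ≤ r`) depend on the classes modulo `q ≤ r` only. -/
def Adapted (β : ℕ → ℕ → (ℕ → ℕ) → ℕ) : Prop :=
  ∀ r p : ℕ, p ≤ r → ∀ a a' : ℕ → ℕ, (∀ q ≤ r, a q = a' q) → β r p a = β r p a'

/-- `⌊n ^ (1 / K)⌋` -/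
def root (K n : ℕ) : ℕ := Nat.findGreatest (fun r => r ^ K ≤ n) n

/-- The residue class removed modulo the prime `p` near `n`: `β r p a` for `p ≤ r = ⌊n ^ (1 / K)⌋`,
and `a p` for the larger primes. -/
def cls (K : ℕ) (β : ℕ → ℕ → (ℕ → ℕ) → ℕ) (a : ℕ → ℕ) (n p : ℕ) : ℕ :=
  if p ≤ root K n then β (root K n) p a else a p

/-- `(n, n + 2)` is a surviving pair of odd integers of the hybrid sieve. -/
def Pair (K : ℕ) (Z : ℕ → ℕ) (β : ℕ → ℕ → (ℕ → ℕ) → ℕ) (a : ℕ → ℕ) (n : ℕ) : Prop :=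
  n % 2 = 1 ∧ ∀ p : ℕ, p.Prime → 3 ≤ p → p ≤ Z n →
    ¬ n ≡ cls K β a n p [MOD p] ∧ ¬ n + 2 ≡ cls K β a n p [MOD p]

/-- `(n, n + 2)` is a surviving pair of odd integers of the random sieve (removed classes `a p`). -/
def RPair (Z : ℕ → ℕ) (a : ℕ → ℕ) (n : ℕ) : Prop :=
  n % 2 = 1 ∧ ∀ p : ℕ, p.Prime → 3 ≤ p → p ≤ Z n → ¬ n ≡ a p [MOD p] ∧ ¬ n + 2 ≡ a p [MOD p]

theorem result :
    (∀ (k : ℕ) (ε : ℝ), 0 < ε → ∃ K0 : ℕ, ∀ K ≥ K0, ∀ Z : ℕ → ℕ, Cut k Z →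
      ∀ β : ℕ → ℕ → (ℕ → ℕ) → ℕ, Adapted β →
      ∀ (Ω : Type) [MeasurableSpace Ω] (μ : Measure Ω) [IsProbabilityMeasure μ] (ω : ℕ → Ω → ℕ),
      Uni μ ω → ∀ᵐ w ∂μ, ∀ c d : ℕ, (c = 1 ∨ c = 3) → (d = 1 ∨ d = 3) →
        ∀ᶠ x : ℕ in atTop, |delta (Pair K Z β (fun p => ω p w)) x c d - 1 / 2| ≤ ε) ∧
    (∀ (k : ℕ) (Z : ℕ → ℕ), Cut k Z →
      ∀ (Ω : Type) [MeasurableSpace Ω] (μ : Measure Ω) [IsProbabilityMeasure μ] (ω : ℕ → Ω → ℕ),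
      Uni μ ω → ∀ᵐ w ∂μ, ∀ c d : ℕ, (c = 1 ∨ c = 3) → (d = 1 ∨ d = 3) →
        Tendsto (fun x => delta (RPair Z (fun p => ω p w)) x c d) atTop (𝓝 (1 / 2))) := by
  refine ⟨?_, ?_⟩
  · intro k ε hε
    obtain ⟨K0, h⟩ := Helper60.BFT.main_thm k ε hε
    refine ⟨K0, ?_⟩
    intro K hK Z hZ β hβ Ω _ μ _ ω hω
    exact h K hK Z ⟨hZ.1, hZ.2.1, hZ.2.2⟩ β hβ Ω μ ω ⟨hω.1, hω.2.1, hω.2.2⟩
  · intro k Z hZ Ω _ μ _ ω hω
    exact Helper60.BFT.pure_of Helper60.BFT.main_thm k Z ⟨hZ.1, hZ.2.1, hZ.2.2⟩ Ω μ ω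
      ⟨hω.1, hω.2.1, hω.2.2⟩

end Pool.Agent.Results.MP_74f661_nt.HybridSieve
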